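import Pool.Agent.Y347.CO.Stm

/-!
# Project CO (helper347), job CO-POST: Post's lemma on Boolean operations

A set of Boolean words which is closed under a coordinatewise operation that depends on at least
two variables is closed under AND, OR, majority or `x + y + z`.

Proof. Let `u b = f (b, ..., b)`. If `u` is constant then a suitable minor in two variables gives AND,
OR or `x + y + z`. If `u` is the negation we replace `f` by `u ∘ f`. If `u` is the identity then either
a minor in two variables is AND or OR, or `f` is self-dual; in this case either some minor in three
variables gives majority or `x + y + z`, or all of them are projections and then `f` is a projection.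
-/

set_option autoImplicit false

namespace Pool.Agent.Y356.CO

open Finset Function
open Pool.Agent.Y347.CO

/-- the conclusion -/
def Con {ι : Type} (A : Set (ι → Bool)) : Prop :=
  (∀ a ∈ A, ∀ b ∈ A, (fun i => a i && b i) ∈ A) ∨
  (∀ a ∈ A, ∀ b ∈ A, (fun i => a i || b i) ∈ A) ∨
  (∀ a ∈ A, ∀ b ∈ A, ∀ c ∈ A, (fun i => (a i && b i) || (a i && c i) || (b i && c i)) ∈ A) ∨
  (∀ a ∈ A, ∀ b ∈ A, ∀ c ∈ A, (fun i => xor (a i) (xor (b i) (c i))) ∈ A)

variable {ι : Type} {A : Set (ι → Bool)} {m : ℕ} {f : (Fin m → Bool) → Bool}

/-- minors in three variables -/
def g3 (f : (Fin m → Bool) → Bool) (S T : Fin m → Bool) (x y z : Bool) : Bool :=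
  f fun l => if S l then x else if T l then y else z

/-- minors in two variables -/
def g2 (f : (Fin m → Bool) → Bool) (S : Fin m → Bool) (x y : Bool) : Bool :=
  f fun l => if S l then x else y

theorem closed3 (h : ClosedB A f) (S T : Fin m → Bool) :
    ∀ a ∈ A, ∀ b ∈ A, ∀ c ∈ A, (fun i => g3 f S T (a i) (b i) (c i)) ∈ A := by
  intro a ha b hb c hc
  have h1 := h (fun l => if S l then a else if T l then b else c) (fun l => by
    split_ifs
    · exact ha
    · exact hb
    · exact hc)
  have e : (fun i => g3 f S T (a i) (b i) (c i)) =
      fun i => f fun l => (if S l then a else if T l then b else c) i := by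
    funext i
    unfold g3
    congr 1
    funext l
    split_ifs <;> rfl
  rw [e]
  exact h1

theorem closed2 (h : ClosedB A f) (S : Fin m → Bool) :
    ∀ a ∈ A, ∀ b ∈ A, (fun i => g2 f S (a i) (b i)) ∈ A := by
  intro a ha b hb
  have h1 := h (fun l => if S l then a else b) (fun l => by
    split_ifs
    · exact ha
    · exact hb)
  have e : (fun i => g2 f S (a i) (b i)) = fun i => f fun l => (if S l then a else b) i := by
    funext i
    unfold g2
    congr 1
    funext l
    split_ifs <;> rfl
  rw [e]
  exact h1

/-- operations in two variables -/
theorem two {g : Bool → Bool → Bool} (hg : ∀ a ∈ A, ∀ b ∈ A, (fun i => g (a i) (b i)) ∈ A)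
    (h : (g false false = g true true ∧ g true false ≠ g true true) ∨
      (g false false = false ∧ g true true = true ∧ g true false = g false true)) : Con A := by
  have key : (∀ x y, g x y = (x && y)) ∨ (∀ x y, g x y = (x || y)) ∨
      (∀ x y, g x (g x y) = (x && y)) ∨ (∀ x y, g (g x y) y = (x || y)) ∨
      (∀ x y z, g (g x y) z = xor x (xor y z)) := by
    revert h
    clear hg
    cases h00 : g false false <;> cases h01 : g false true <;> cases h10 : g true false <;>
      cases h11 : g true true <;> simp [Bool.forall_bool, h00, h01, h10, h11]
  rcases key with k | k | k | k | k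
  · refine Or.inl fun a ha b hb => ?_
    have := hg a ha b hb
    simpa only [k] using this
  · refine Or.inr (Or.inl fun a ha b hb => ?_)
    have := hg a ha b hb
    simpa only [k] using this
  · refine Or.inl fun a ha b hb => ?_
    have := hg a ha _ (hg a ha b hb)
    simpa only [k] using this
  · refine Or.inr (Or.inl fun a ha b hb => ?_)
    have := hg _ (hg a ha b hb) b hb
    simpa only [k] using this
  · refine Or.inr (Or.inr (Or.inr fun a ha b hb c hc => ?_))
    have := hg _ (hg a ha b hb) c hc
    simpa only [k] using this

/-- operations in three variables -/
theorem three {g : Bool → Bool → Bool → Bool}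
    (hg : ∀ a ∈ A, ∀ b ∈ A, ∀ c ∈ A, (fun i => g (a i) (b i) (c i)) ∈ A)
    (h0 : g false false false = false) (hd : ∀ x y z, g (!x) (!y) (!z) = !(g x y z)) :
    Con A ∨ (∀ x y z, g x y z = x) ∨ (∀ x y z, g x y z = y) ∨ (∀ x y z, g x y z = z) := by
  have key : (∀ x y z, g x y z = ((x && y) || (x && z) || (y && z))) ∨
      (∀ x y z, g x y z = xor x (xor y z)) ∨
      (∀ x y z, g x y (g x y z) = ((x && y) || (x && z) || (y && z))) ∨
      (∀ x y z, g x (g x y z) z = ((x && y) || (x && z) || (y && z))) ∨
      (∀ x y z, g (g x y z) y z = ((x && y) || (x && z) || (y && z))) ∨
      (∀ x y z, g x y z = x) ∨ (∀ x y z, g x y z = y) ∨ (∀ x y z, g x y z = z) := by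
    have h1 : g true true true = true := by
      have := hd false false false
      rw [h0] at this
      exact this
    have h2 : g false true true = !(g true false false) := hd true false false
    have h3 : g true false true = !(g false true false) := hd false true false
    have h4 : g true true false = !(g false false true) := hd false false true
    clear hg hd
    cases h5 : g true false false <;> cases h6 : g false true false <;>
      cases h7 : g false false true <;> rw [h5] at h2 <;> rw [h6] at h3 <;> rw [h7] at h4 <;>
      simp [Bool.forall_bool, h0, h1, h2, h3, h4, h5, h6, h7]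
  rcases key with k | k | k | k | k | k | k | k
  · refine Or.inl (Or.inr (Or.inr (Or.inl fun a ha b hb c hc => ?_)))
    have := hg a ha b hb c hc
    simpa only [k] using this
  · refine Or.inl (Or.inr (Or.inr (Or.inr fun a ha b hb c hc => ?_)))
    have := hg a ha b hb c hc
    simpa only [k] using this
  · refine Or.inl (Or.inr (Or.inr (Or.inl fun a ha b hb c hc => ?_)))
    have := hg a ha b hb _ (hg a ha b hb c hc)
    simpa only [k] using this
  · refine Or.inl (Or.inr (Or.inr (Or.inl fun a ha b hb c hc => ?_)))
    have := hg a ha _ (hg a ha b hb c hc) c hc
    simpa only [k] using this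
  · refine Or.inl (Or.inr (Or.inr (Or.inl fun a ha b hb c hc => ?_)))
    have := hg _ (hg a ha b hb c hc) b hb c hc
    simpa only [k] using this
  · exact Or.inr (Or.inl k)
  · exact Or.inr (Or.inr (Or.inl k))
  · exact Or.inr (Or.inr (Or.inr k))

theorem g2_self (S : Fin m → Bool) : g2 f S true false = f S := by
  unfold g2
  congr 1
  funext l
  cases S l <;> rfl

theorem g2_not (S : Fin m → Bool) : g2 f S false true = f fun l => !(S l) := by
  unfold g2
  congr 1
  funext l
  cases S l <;> rfl

theorem g2_diag (S : Fin m → Bool) (x : Bool) : g2 f S x x = f fun _ => x := by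
  unfold g2
  congr 1
  funext l
  rw [ite_self]

/-- the idempotent case -/
theorem idem (h : ClosedB A f) (hid : ∀ b, (f fun _ => b) = b) {j j' : Fin m} (hj : j ≠ j')
    (h1 : DependsOn f j) (h2 : DependsOn f j') : Con A := by
  by_contra hC
  -- `f` is self-dual
  have hd : ∀ x : Fin m → Bool, (f fun l => !(x l)) = !(f x) := by
    intro S
    by_contra hne
    apply hC
    refine two (closed2 h S) (Or.inr ⟨?_, ?_, ?_⟩)
    · rw [g2_diag, hid]
    · rw [g2_diag, hid]
    · rw [g2_self, g2_not]
      revert hne
      generalize (f fun l => !(S l)) = p
      generalize f S = q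
      cases p <;> cases q <;> simp
  -- the minors in three variables are projections
  have hp : ∀ S T : Fin m → Bool, (∀ x y z, g3 f S T x y z = x) ∨ (∀ x y z, g3 f S T x y z = y) ∨
      (∀ x y z, g3 f S T x y z = z) := by
    intro S T
    refine (three (closed3 h S T) ?_ ?_).resolve_left hC
    · have : g3 f S T false false false = f fun _ => false := by
        unfold g3
        congr 1
        funext l
        rw [ite_self, ite_self]
      rw [this, hid]
    · intro x y z
      unfold g3
      rw [← hd]
      congr 1
      funext l
      split_ifs <;> rfl
  -- values on the sets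
  have v1 : ∀ S T : Fin m → Bool, g3 f S T true false false = f S := by
    intro S T
    unfold g3
    congr 1
    funext l
    cases S l <;> simp
  have v2 : ∀ S T : Fin m → Bool, g3 f S T true true false = f fun l => S l || T l := by
    intro S T
    unfold g3
    congr 1
    funext l
    cases S l <;> cases T l <;> simp
  have v3 : ∀ S T : Fin m → Bool, g3 f S T false true false = f fun l => !(S l) && T l := by
    intro S T
    unfold g3
    congr 1
    funext l
    cases S l <;> cases T l <;> simp
  -- some coordinate
  have hex : ∀ n : ℕ, ∀ x : Fin m → Bool, (univ.filter fun l => x l = true).card = n →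
      f x = true → ∃ i, f (fun l => decide (l = i)) = true := by
    intro n
    induction n with
    | zero =>
      intro x hx hfx
      rw [Finset.card_eq_zero, Finset.filter_eq_empty_iff] at hx
      have : x = fun _ => false := by
        funext l
        have := hx (Finset.mem_univ l)
        simpa using this
      rw [this, hid] at hfx
      exact absurd hfx (by decide)
    | succ n ih =>
      intro x hx hfx
      have hne : (univ.filter fun l => x l = true).Nonempty := by
        rw [← Finset.card_pos, hx]
        omega
      obtain ⟨i, hi⟩ := hne
      rw [Finset.mem_filter] at hi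
      by_cases hfi : f (fun l => decide (l = i)) = true
      · exact ⟨i, hfi⟩
      have e1 := v1 (fun l => decide (l = i)) x
      have e2 := v2 (fun l => decide (l = i)) x
      have e3 := v3 (fun l => decide (l = i)) x
      have e4 : (fun l => decide (l = i) || x l) = x := by
        funext l
        by_cases hl : l = i
        · subst hl
          simp [hi.2]
        · simp [hl]
      rw [e4, hfx] at e2
      have e5 : f (fun l => !(decide (l = i)) && x l) = true := by
        rcases hp (fun l => decide (l = i)) x with k | k | k
        · rw [k] at e1
          exact absurd e1.symm hfi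
        · rw [k] at e3
          exact e3.symm
        · rw [k] at e2
          exact absurd e2 (by decide)
      refine ih _ ?_ e5
      have e6 : (univ.filter fun l => (!(decide (l = i)) && x l) = true) =
          (univ.filter fun l => x l = true).erase i := by
        ext l
        simp [Finset.mem_erase]
      rw [e6, Finset.card_erase_of_mem (Finset.mem_filter.2 ⟨Finset.mem_univ i, hi.2⟩), hx]
      rfl
  obtain ⟨i, hi⟩ := hex _ (fun _ => true) rfl (hid true)
  have hup : ∀ x : Fin m → Bool, x i = true → f x = true := by
    intro x hx
    have e1 := v1 (fun l => decide (l = i)) x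
    have e2 := v2 (fun l => decide (l = i)) x
    have e4 : (fun l => decide (l = i) || x l) = x := by
      funext l
      by_cases hl : l = i
      · subst hl
        simp [hx]
      · simp [hl]
    rw [e4] at e2
    rw [hi] at e1
    rcases hp (fun l => decide (l = i)) x with k | k | k
    · rw [k] at e2
      exact e2.symm
    · rw [k] at e1
      exact absurd e1 (by decide)
    · rw [k] at e1
      exact absurd e1 (by decide)
  have hval : ∀ x : Fin m → Bool, f x = x i := by
    intro x
    cases hx : x i
    · have h3 := hup (fun l => !(x l)) (by rw [hx]; rfl)
      rw [hd] at h3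
      revert h3
      cases f x <;> simp
    · exact hup x hx
  have hnd : ∀ l : Fin m, l ≠ i → ¬ DependsOn f l := by
    rintro l hl ⟨x, hx⟩
    apply hx
    rw [hval, hval, update_of_ne hl.symm, update_of_ne hl.symm]
  by_cases hji : j = i
  · exact hnd j' (fun h3 => hj (hji.trans h3.symm)) h2
  · exact hnd j hji h1

theorem done : S_POST := by
  intro ι A m f j j' hj h1 h2 h
  show Con A
  by_cases hu : (f fun _ => true) = f fun _ => false
  · -- `u` is constant
    by_contra hC
    have hconst : ∀ x, f x = f fun _ => true := by
      intro S
      by_contra hne
      apply hC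
      refine two (closed2 h S) (Or.inl ⟨?_, ?_⟩)
      · rw [g2_diag, g2_diag, hu]
      · rw [g2_self, g2_diag]
        exact hne
    obtain ⟨x, hx⟩ := h1
    apply hx
    rw [hconst, hconst (update x j false)]
  · by_cases hid : (f fun _ => true) = true
    · have hid' : (f fun _ => false) = false := by
        rw [hid] at hu
        revert hu
        generalize (f fun _ => false) = q
        cases q <;> simp
      refine idem h ?_ hj h1 h2
      intro b
      cases b
      · exact hid'
      · exact hid
    · -- `u` is the negation
      have hid1 : (f fun _ => true) = false := by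
        revert hid
        generalize (f fun _ => true) = q
        cases q <;> simp
      have hid2 : (f fun _ => false) = true := by
        rw [hid1] at hu
        revert hu
        generalize (f fun _ => false) = q
        cases q <;> simp
      have hu' : ∀ b, (f fun _ => b) = !b := by
        intro b
        cases b
        · exact hid2
        · exact hid1
      have hdep : ∀ l : Fin m, DependsOn f l → DependsOn (fun x => !(f x)) l := by
        rintro l ⟨x, hx⟩
        refine ⟨x, fun h3 => hx ?_⟩
        simpa using h3
      refine idem (f := fun x => !(f x)) ?_ ?_ hj (hdep j h1) (hdep j' h2)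
      · intro a ha
        have h3 := h (fun _ => fun i => f fun l => a l i) (fun _ => h a ha)
        have e : (fun i => !(f fun l => a l i)) = fun i => f fun _ => f fun l => a l i := by
          funext i
          rw [hu']
        show (fun i => !(f fun l => a l i)) ∈ A
        rw [e]
        exact h3
      · intro b
        show (!(f fun _ => b)) = b
        rw [hu', Bool.not_not]

end Pool.Agent.Y356.CO
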